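import Pool.Agent.Lib.MP_896b3c_an.Flux

/-!
A smooth exact area-preserving twist map of standard type with an invariant graph of irrational
rotation number on which it is not conjugate to a rotation.
-/

namespace Pool.Agent.Results.MP_896b3c_an.SmoothDenjoyCurve

theorem result :
    ∃ (φ : ℝ → ℝ) (F : ℝ × ℝ → ℝ × ℝ),
      (∀ n : ℕ, ContDiff ℝ n φ) ∧ (∀ x, φ (x + 1) = φ x) ∧ (∫ x in (0 : ℝ)..1, φ x) = 0 ∧
      (∀ x y, F (x, y) = (x + y + φ x, y + φ x)) ∧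
      ∃ γ : ℝ → ℝ, Continuous γ ∧ (∀ x, γ (x + 1) = γ x) ∧
        ∃ g : CircleDeg1Lift, Continuous g ∧ Function.Bijective g ∧
          (∀ x, F (x, γ x) = (g x, γ (g x))) ∧
          Irrational g.translationNumber ∧
          ¬ ∃ h : ℝ ≃ₜ ℝ, ∃ a : ℝ, (∀ x, h (x + 1) = h x + 1) ∧ ∀ x, h (g x) = h x + a := by
  obtain ⟨φ, h1, h2, h3, h4⟩ := Pool.Agent.Lib.MP_896b3c_an.main'
  exact ⟨φ, Pool.Agent.Lib.MP_896b3c_an.stdMap φ, h1, h2, h3, fun _ _ => rfl, h4⟩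

end Pool.Agent.Results.MP_896b3c_an.SmoothDenjoyCurve
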